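import Pool.Agent.Helper6.O3.St

/-!
# Project O3, module OS: oscillation of second order recurrences
-/

set_option autoImplicit false

namespace Pool.Agent.Helper72.O3

open Pool.Agent.Helper6.O3 Filter Topology
open Pool.Agent.Helper99.DF (T TL sq chk Cert ver StVER StTRA StCMP StSND StPR1 StPRC StVP)

/-- a positive sequence cannot decrease by a fixed amount for ever -/
theorem no_linear_decrease (t : ℕ → ℝ) (k0 : ℕ) (d : ℝ) (hd : 0 < d) (hpos : ∀ k, k0 ≤ k → 0 < t k)
    (hdec : ∀ k, k0 ≤ k → t (k + 1) ≤ t k - d) : False := by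
  have h1 : ∀ j : ℕ, t (k0 + j) ≤ t k0 - j * d := by
    intro j
    induction j with
    | zero => simp
    | succ j ih =>
      have h2 := hdec (k0 + j) (by omega)
      have h3 : k0 + (j + 1) = k0 + j + 1 := by omega
      rw [h3]
      push_cast
      nlinarith
  obtain ⟨j, hj⟩ := exists_nat_gt (t k0 / d)
  have h2 := h1 j
  have h3 := hpos (k0 + j) (by omega)
  have h4 : t k0 < j * d := by
    rwa [div_lt_iff₀ hd] at hj
  linarith

theorem hOS : StOS := by
  intro e P Q he hQ hrec
  have hP : 0 < P := by
    have h1 := hrec 0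
    have h2 := he 2
    have h3 := he 1
    have h4 := he 0
    have h5 : P * e 1 = e 2 + Q * e 0 := by
      have : e (0 + 2) = e 2 := rfl
      have h6 : e 2 = P * e 1 - Q * e 0 := h1
      linarith
    by_contra hcon
    push Not at hcon
    have h7 : P * e 1 ≤ 0 := mul_nonpos_of_nonpos_of_nonneg hcon h3.le
    have h8 : 0 < Q * e 0 := mul_pos hQ h4
    linarith
  set t : ℕ → ℝ := fun k => e (k + 1) / e k with ht
  have htpos : ∀ k, 0 < t k := fun k => div_pos (he _) (he _)
  have htrec : ∀ k, t (k + 1) = P - Q / t k := by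
    intro k
    have h1 := hrec k
    have h2 := (he k).ne'
    have h3 := (he (k + 1)).ne'
    simp only [ht]
    rw [show k + 1 + 1 = k + 2 by ring, h1]
    field_simp
  have htP : ∀ k, t (k + 1) < P := by
    intro k
    rw [htrec k]
    have : 0 < Q / t k := div_pos hQ (htpos k)
    linarith
  have hstep : ∀ k, t (k + 1) = t k - (t k ^ 2 - P * t k + Q) / t k := by
    intro k
    rw [htrec k]
    have := (htpos k).ne'
    field_simp
    ring
  -- a decrease whenever the quadratic polynomial is at least `m`
  have hdrop : ∀ (k : ℕ) (m : ℝ), 0 < m → t k ≤ P → m ≤ t k ^ 2 - P * t k + Q →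
      t (k + 1) ≤ t k - m / P := by
    intro k m hm h1 h2
    rw [hstep k]
    have h3 : m / P ≤ (t k ^ 2 - P * t k + Q) / t k := by
      rw [div_le_div_iff₀ hP (htpos k)]
      have h4 := htpos k
      nlinarith
    linarith
  refine ⟨?_, hP, ?_⟩
  · by_contra hcon
    push Not at hcon
    have hm : 0 < Q - P ^ 2 / 4 := by linarith
    refine no_linear_decrease t 1 ((Q - P ^ 2 / 4) / P) (div_pos hm hP) (fun k _ => htpos k) ?_
    intro k hk
    obtain ⟨j, rfl⟩ : ∃ j, k = j + 1 := ⟨k - 1, by omega⟩
    refine hdrop (j + 1) (Q - P ^ 2 / 4) hm (htP j).le ?_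
    nlinarith [sq_nonneg (t (j + 1) - P / 2)]
  · intro hlc n
    by_contra hcon
    push Not at hcon
    have hg : ∀ k, 0 < t k ^ 2 - P * t k + Q := by
      intro k
      have h1 := hlc k
      rw [hrec k] at h1
      have h2 := he k
      have h3 : t k ^ 2 - P * t k + Q = (e (k + 1) ^ 2 - e k * (P * e (k + 1) - Q * e k)) / e k ^ 2 := by
        simp only [ht]
        field_simp
        ring
      rw [h3]
      exact div_pos (by linarith) (by positivity)
    have h1 : t n < P / 2 := by
      simp only [ht]
      rw [div_lt_iff₀ (he n)]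
      linarith
    have h2 : ∀ j, t (n + j) ≤ t n ∧ t (n + j + 1) ≤ t (n + j) - (t n ^ 2 - P * t n + Q) / P := by
      intro j
      have key : ∀ j, t (n + j) ≤ t n →
          t (n + j + 1) ≤ t (n + j) - (t n ^ 2 - P * t n + Q) / P := by
        intro j hj
        refine hdrop (n + j) _ (hg n) (by linarith) ?_
        nlinarith [mul_nonneg (sub_nonneg.mpr hj) (by linarith : (0 : ℝ) ≤ P - t n - t (n + j))]
      induction j with
      | zero => exact ⟨le_refl _, key 0 (le_refl _)⟩
      | succ j ih =>
        have h3 : 0 < (t n ^ 2 - P * t n + Q) / P := div_pos (hg n) hP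
        have h4 : t (n + (j + 1)) ≤ t n := by
          have h5 := ih.2
          have h6 : n + (j + 1) = n + j + 1 := by omega
          rw [h6]; linarith [ih.1]
        exact ⟨h4, key (j + 1) h4⟩
    refine no_linear_decrease t n ((t n ^ 2 - P * t n + Q) / P) (div_pos (hg n) hP)
      (fun k _ => htpos k) ?_
    intro k hk
    obtain ⟨j, rfl⟩ : ∃ j, k = n + j := ⟨k - n, by omega⟩
    exact (h2 j).2

end Pool.Agent.Helper72.O3
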