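import Pool.Agent.Helper6.O3.St2

/-! Project O3 (helper6), module EY: the periodic case, converse. -/

set_option autoImplicit false

namespace Pool.Agent.Helper72.O3

open Pool.Agent.Helper6.O3 Filter Topology
open Pool.Agent.Helper99.DF (T TL sq)

theorem ey_prod (x φ : ℝ) :
    Real.sin (x - φ) * Real.sin x = (Real.cos φ - Real.cos (2 * x - φ)) / 2 := by
  have h1 : Real.cos φ = Real.cos (x - (x - φ)) := by congr 1; ring
  have h2 : Real.cos (2 * x - φ) = Real.cos (x + (x - φ)) := by congr 1; ring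
  rw [h1, h2, Real.cos_sub x (x - φ), Real.cos_add x (x - φ)]
  ring

theorem ey_cos (t w : ℝ) : 2 * Real.cos t * Real.cos w = Real.cos (w + t) + Real.cos (w - t) := by
  rw [Real.cos_add, Real.cos_sub]
  ring

theorem ey_rec (x φ : ℝ) :
    Real.sin (x + 2 * φ) * Real.sin (x + 3 * φ) -
      (1 + 2 * Real.cos (2 * φ)) * (Real.sin (x + φ) * Real.sin (x + 2 * φ)) +
      (1 + 2 * Real.cos (2 * φ)) * (Real.sin x * Real.sin (x + φ)) -
      Real.sin (x - φ) * Real.sin x = 0 := by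
  have h3 := ey_prod (x + 3 * φ) φ
  have h2 := ey_prod (x + 2 * φ) φ
  have h1 := ey_prod (x + φ) φ
  have h0 := ey_prod x φ
  rw [show x + 3 * φ - φ = x + 2 * φ by ring,
    show 2 * (x + 3 * φ) - φ = (2 * x + 3 * φ) + 2 * φ by ring] at h3
  rw [show x + 2 * φ - φ = x + φ by ring,
    show 2 * (x + 2 * φ) - φ = 2 * x + 3 * φ by ring] at h2
  rw [show x + φ - φ = x by ring, show 2 * (x + φ) - φ = 2 * x + φ by ring] at h1
  have e1 := ey_cos (2 * φ) (2 * x + 3 * φ)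
  have e2 := ey_cos (2 * φ) (2 * x + φ)
  rw [show 2 * x + 3 * φ - 2 * φ = 2 * x + φ by ring] at e1
  rw [show 2 * x + φ + 2 * φ = 2 * x + 3 * φ by ring,
    show 2 * x + φ - 2 * φ = 2 * x - φ by ring] at e2
  rw [h3, h2, h1, h0]
  linear_combination (1 / 2) * e1 - (1 / 2) * e2

theorem ey_T (x φ : ℝ) : Real.sin (x - φ) * Real.sin x -
    Real.sin (x - 2 * φ) * Real.sin (x + φ) = Real.sin φ * Real.sin (2 * φ) := by
  have h0 := ey_prod x φ
  have h1 : Real.sin (x - 2 * φ) * Real.sin (x + φ) =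
      (Real.cos (3 * φ) - Real.cos (2 * x - φ)) / 2 := by
    have e1 : Real.cos (3 * φ) = Real.cos ((x + φ) - (x - 2 * φ)) := by congr 1; ring
    have e2 : Real.cos (2 * x - φ) = Real.cos ((x + φ) + (x - 2 * φ)) := by congr 1; ring
    rw [e1, e2, Real.cos_sub (x + φ) (x - 2 * φ), Real.cos_add (x + φ) (x - 2 * φ)]
    ring
  have h2 : Real.sin φ * Real.sin (2 * φ) = (Real.cos φ - Real.cos (3 * φ)) / 2 := by
    have e1 := ey_prod (2 * φ) φ
    rw [show 2 * φ - φ = φ by ring, show 2 * (2 * φ) - φ = 3 * φ by ring] at e1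
    exact e1
  rw [h0, h1, h2]
  ring

theorem ey_sign (P : ℕ) (hP : 3 ≤ P) (k : ℕ) :
    0 ≤ Real.sin (((k : ℝ) - 1) * (Real.pi / P)) * Real.sin ((k : ℝ) * (Real.pi / P)) := by
  have hP0 : (0 : ℝ) < P := by exact_mod_cast (by omega : 0 < P)
  have hφ : 0 < Real.pi / P := div_pos Real.pi_pos hP0
  have hPφ : (P : ℝ) * (Real.pi / P) = Real.pi := by field_simp
  have hk : (k : ℝ) = (P : ℝ) * ((k / P : ℕ) : ℝ) + ((k % P : ℕ) : ℝ) := by
    exact_mod_cast (Nat.div_add_mod k P).symm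
  have hv : k % P < P := Nat.mod_lt _ (by omega)
  have h1 : ((k : ℝ) - 1) * (Real.pi / P) =
      (((k % P : ℕ) : ℝ) - 1) * (Real.pi / P) + ((k / P : ℕ) : ℝ) * Real.pi := by
    rw [hk]
    linear_combination ((k / P : ℕ) : ℝ) * hPφ
  have h2 : (k : ℝ) * (Real.pi / P) =
      ((k % P : ℕ) : ℝ) * (Real.pi / P) + ((k / P : ℕ) : ℝ) * Real.pi := by
    rw [hk]
    linear_combination ((k / P : ℕ) : ℝ) * hPφ
  rw [h1, h2, Real.sin_add_nat_mul_pi, Real.sin_add_nat_mul_pi]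
  have h3 : ((-1 : ℝ) ^ (k / P)) * ((-1 : ℝ) ^ (k / P)) = 1 := by
    rw [← mul_pow]; norm_num
  have h4 : (-1 : ℝ) ^ (k / P) * Real.sin ((((k % P : ℕ) : ℝ) - 1) * (Real.pi / P)) *
      ((-1 : ℝ) ^ (k / P) * Real.sin (((k % P : ℕ) : ℝ) * (Real.pi / P))) =
      Real.sin ((((k % P : ℕ) : ℝ) - 1) * (Real.pi / P)) *
        Real.sin (((k % P : ℕ) : ℝ) * (Real.pi / P)) := by
    linear_combination (Real.sin ((((k % P : ℕ) : ℝ) - 1) * (Real.pi / P)) *
        Real.sin (((k % P : ℕ) : ℝ) * (Real.pi / P))) * h3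
  rw [h4]
  by_cases hv0 : k % P = 0
  · rw [hv0]; simp
  · have hv1 : (1 : ℝ) ≤ ((k % P : ℕ) : ℝ) := by exact_mod_cast (by omega : 1 ≤ k % P)
    have hv2 : ((k % P : ℕ) : ℝ) ≤ P := by exact_mod_cast hv.le
    have h5 : ((k % P : ℕ) : ℝ) * (Real.pi / P) ≤ Real.pi := by
      calc ((k % P : ℕ) : ℝ) * (Real.pi / P) ≤ (P : ℝ) * (Real.pi / P) :=
            mul_le_mul_of_nonneg_right hv2 hφ.le
        _ = Real.pi := hPφ
    have h6 : 0 ≤ (((k % P : ℕ) : ℝ) - 1) * (Real.pi / P) :=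
      mul_nonneg (by linarith) hφ.le
    have h7 : (((k % P : ℕ) : ℝ) - 1) * (Real.pi / P) ≤ Real.pi := by
      nlinarith
    exact mul_nonneg (Real.sin_nonneg_of_nonneg_of_le_pi h6 h7)
      (Real.sin_nonneg_of_nonneg_of_le_pi (by positivity) h5)

theorem hEY : StEY := by
  intro c α P A hα hP hA hc
  have hP0 : (0 : ℝ) < P := by exact_mod_cast (by omega : 0 < P)
  have hP3 : (3 : ℝ) ≤ P := by exact_mod_cast hP
  have hsign := ey_sign P hP
  have hPφ : (P : ℝ) * (Real.pi / P) = Real.pi := by field_simp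
  have hφ : 0 < Real.pi / P := div_pos Real.pi_pos hP0
  generalize Real.pi / (P : ℝ) = φ at *
  have hφ3 : 3 * φ ≤ Real.pi := by
    rw [← hPφ]
    exact mul_le_mul_of_nonneg_right hP3 hφ.le
  have hs1 : 0 < Real.sin φ := Real.sin_pos_of_pos_of_lt_pi hφ (by linarith)
  have hs2 : 0 < Real.sin (2 * φ) := Real.sin_pos_of_pos_of_lt_pi (by linarith) (by linarith)
  have hc0 : c 0 = 0 := by rw [hc 0]; simp
  have hc1 : c 1 = 0 := by rw [hc 1]; simp
  have hcn : ∀ k, 0 ≤ c k := by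
    intro k
    rw [hc k, mul_assoc]
    exact mul_nonneg (by positivity) (hsign k)
  refine ⟨hc0, hc1, ?_, hcn, ?_, ?_, ?_, ?_⟩
  · rw [hc 2]
    have h1 : (((2 : ℕ) : ℝ) - 1) * φ = φ := by push_cast; ring
    have h2 : ((2 : ℕ) : ℝ) * φ = 2 * φ := by push_cast; ring
    rw [h1, h2]
    positivity
  · intro k
    cases k with
    | zero =>
      have : T c 0 = c 0 ^ 2 - c 0 * c 1 := rfl
      rw [this, hc0]
      simp
    | succ n =>
      have h0 : T c (n + 1) = c (n + 1) ^ 2 - c n * c (n + 2) := rfl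
      have h1 := ey_T (((n + 1 : ℕ) : ℝ) * φ) φ
      have e1 : ((n + 1 : ℕ) : ℝ) * φ - φ = (((n + 1 : ℕ) : ℝ) - 1) * φ := by ring
      have e2 : ((n + 1 : ℕ) : ℝ) * φ - 2 * φ = ((n : ℝ) - 1) * φ := by push_cast; ring
      have e3 : ((n + 1 : ℕ) : ℝ) * φ + φ = ((n + 2 : ℕ) : ℝ) * φ := by push_cast; ring
      have e4 : (((n + 1 : ℕ) : ℝ) - 1) * φ = (n : ℝ) * φ := by push_cast; ring
      have e5 : (((n + 2 : ℕ) : ℝ) - 1) * φ = ((n + 1 : ℕ) : ℝ) * φ := by push_cast; ring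
      rw [e1, e2, e3] at h1
      have h2 : T c (n + 1) = A ^ 2 * α ^ (2 * (n + 1)) * (Real.sin φ * Real.sin (2 * φ)) *
          (Real.sin ((((n + 1 : ℕ) : ℝ) - 1) * φ) * Real.sin (((n + 1 : ℕ) : ℝ) * φ)) := by
        rw [h0, hc (n + 1), hc n, hc (n + 2), e5, ← h1, e4]
        ring
      rw [h2]
      exact mul_nonneg (by positivity) (hsign (n + 1))
  · rw [hc P, hPφ, Real.sin_pi, mul_zero]
  · rw [hc (P + 1)]
    have h1 : (((P + 1 : ℕ) : ℝ) - 1) * φ = Real.pi := by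
      rw [← hPφ]; push_cast; ring
    rw [h1, Real.sin_pi]
    ring
  · refine ⟨α * (1 + 2 * Real.cos (2 * φ)), -(α ^ 2 * (1 + 2 * Real.cos (2 * φ))), α ^ 3,
      by positivity, ?_⟩
    intro m
    unfold ka
    have h1 := ey_rec ((m : ℝ) * φ) φ
    have e3 : (((m + 3 : ℕ) : ℝ) - 1) * φ = (m : ℝ) * φ + 2 * φ := by push_cast; ring
    have e3' : ((m + 3 : ℕ) : ℝ) * φ = (m : ℝ) * φ + 3 * φ := by push_cast; ring
    have e2 : (((m + 2 : ℕ) : ℝ) - 1) * φ = (m : ℝ) * φ + φ := by push_cast; ring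
    have e2' : ((m + 2 : ℕ) : ℝ) * φ = (m : ℝ) * φ + 2 * φ := by push_cast; ring
    have e1 : (((m + 1 : ℕ) : ℝ) - 1) * φ = (m : ℝ) * φ := by push_cast; ring
    have e1' : ((m + 1 : ℕ) : ℝ) * φ = (m : ℝ) * φ + φ := by push_cast; ring
    have e0 : ((m : ℝ) - 1) * φ = (m : ℝ) * φ - φ := by ring
    rw [hc (m + 3), hc (m + 2), hc (m + 1), hc m, e3, e3', e2, e2', e1, e1', e0]
    linear_combination (A * α ^ (m + 3)) * h1

end Pool.Agent.Helper72.O3
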